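import Mathlib

set_option autoImplicit false

/-!
# The 3-regular tree as the set of reduced words in three letters
-/

namespace Pool.Agent.TreeFinitary

/-- Vertices: reduced words in three letters (no two consecutive letters are equal). -/
abbrev W : Type := {l : List (Fin 3) // l.IsChain (· ≠ ·)}

/-- The empty word. -/
def root : W := ⟨[], by simp⟩

/-- Word length. -/
def len (w : W) : ℕ := w.1.length

/-- One step along the edge of colour `s`. -/
def step (s : Fin 3) : W → W
  | ⟨[], _⟩ => ⟨[s], by simp⟩
  | ⟨a :: l, h⟩ => if hs : s = a then ⟨l, by
      exact h.tail⟩ else ⟨s :: a :: l, by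
      exact List.isChain_cons_cons.2 ⟨hs, h⟩⟩

lemma step_step (s : Fin 3) (w : W) : step s (step s w) = w := by
  obtain ⟨l, h⟩ := w
  cases l with
  | nil => simp [step]
  | cons a l =>
    by_cases hs : s = a
    · subst hs
      cases l with
      | nil => simp [step]
      | cons b l =>
        have hb : s ≠ b := (List.isChain_cons_cons.1 h).1
        simp [step, hb]
    · simp [step, hs]

lemma len_step (s : Fin 3) (w : W) : len (step s w) = len w + 1 ∨ len w = len (step s w) + 1 := by
  obtain ⟨l, h⟩ := w
  cases l with
  | nil => left; simp [step, len]
  | cons a l =>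
    by_cases hs : s = a
    · right; simp [step, len, hs]
    · left; simp [step, len, hs]

lemma len_step_le (s : Fin 3) (w : W) : len (step s w) ≤ len w + 1 := by
  rcases len_step s w with h | h <;> omega

lemma step_ne (s : Fin 3) (w : W) : step s w ≠ w := by
  intro h
  rcases len_step s w with h' | h' <;> rw [h] at h' <;> omega

lemma step_injective (w : W) : Function.Injective (fun s => step s w) := by
  intro s t h
  obtain ⟨l, hl⟩ := w
  cases l with
  | nil =>
    have := congrArg Subtype.val h
    simpa [step] using this
  | cons a l =>
    by_cases hs : s = a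
    · by_cases ht : t = a
      · rw [hs, ht]
      · have := congrArg (fun w => (Subtype.val w).length) h
        simp [step, hs, ht] at this
        omega
    · by_cases ht : t = a
      · have := congrArg (fun w => (Subtype.val w).length) h
        simp [step, hs, ht] at this
        omega
      · have := congrArg Subtype.val h
        simpa [step, hs, ht] using this

/-- The 3-regular tree. -/
def T : SimpleGraph W where
  Adj u v := ∃ s, step s u = v
  symm := ⟨fun u v ⟨s, h⟩ => ⟨s, by rw [← h, step_step]⟩⟩
  loopless := ⟨fun u ⟨s, h⟩ => step_ne s u h⟩

lemma T_adj {u v : W} : T.Adj u v ↔ ∃ s, step s u = v := Iff.rfl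

instance : DecidableRel T.Adj := fun u v => inferInstanceAs (Decidable (∃ s, step s u = v))

lemma neighborSet_ncard (w : W) : (T.neighborSet w).ncard = 3 := by
  have : T.neighborSet w = Set.range (fun s => step s w) := by
    ext v; simp [T_adj]
  rw [this, ← Set.image_univ, Set.ncard_image_of_injective _ (step_injective w)]
  simp [Set.ncard_univ]

/-- Act by a word on a vertex. -/
def act (l : List (Fin 3)) (v : W) : W := l.foldr step v

@[simp] lemma act_nil (v : W) : act [] v = v := rfl
@[simp] lemma act_cons (s : Fin 3) (l : List (Fin 3)) (v : W) :
    act (s :: l) v = step s (act l v) := rfl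
lemma act_append (l l' : List (Fin 3)) (v : W) : act (l ++ l') v = act l (act l' v) := by
  simp [act]

lemma act_root (w : W) : act w.1 root = w := by
  obtain ⟨l, h⟩ := w
  induction l with
  | nil => rfl
  | cons a l ih =>
    have h' : l.IsChain (· ≠ ·) := h.tail
    have := ih h'
    simp only [act_cons]
    rw [this]
    cases l with
    | nil => simp [step]
    | cons b l =>
      have hb : a ≠ b := (List.isChain_cons_cons.1 h).1
      simp [step, hb]

lemma act_reverse (l : List (Fin 3)) (v : W) : act l (act l.reverse v) = v := by
  induction l generalizing v with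
  | nil => simp
  | cons s l ih =>
    rw [List.reverse_cons, act_append, act_cons, ih]
    simp [step_step]

lemma act_reverse' (l : List (Fin 3)) (v : W) : act l.reverse (act l v) = v := by
  have := act_reverse l.reverse v
  rwa [List.reverse_reverse] at this

lemma len_act_le (l : List (Fin 3)) (v : W) : len (act l v) ≤ l.length + len v := by
  induction l with
  | nil => simp
  | cons s l ih =>
    simp only [act_cons, List.length_cons]
    have := len_step_le s (act l v)
    omega

/-- translation by `g` -/
def tr (g : W) (w : W) : W := act w.1 g

lemma tr_root (g : W) : tr g root = g := rfl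

lemma tr_step (g : W) (s : Fin 3) (w : W) : tr g (step s w) = step s (tr g w) := by
  obtain ⟨l, h⟩ := w
  cases l with
  | nil => simp [step, tr]
  | cons a l =>
    by_cases hs : s = a
    · subst hs
      have h1 : step s ⟨s :: l, h⟩ = ⟨l, h.tail⟩ := by simp [step]
      rw [h1]
      simp only [tr, act_cons, step_step]
    · have h1 : step s ⟨a :: l, h⟩ = ⟨s :: a :: l, List.isChain_cons_cons.2 ⟨hs, h⟩⟩ := by
        simp [step, hs]
      rw [h1]
      simp only [tr, act_cons]

lemma tr_act (g : W) (l : List (Fin 3)) (w : W) : tr g (act l w) = act l (tr g w) := by
  induction l with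
  | nil => rfl
  | cons s l ih => simp [tr_step, ih]

lemma tr_tr (g h w : W) : tr g (tr h w) = tr (tr g h) w := by
  exact tr_act g w.1 h

/-- inverse -/
def inv (g : W) : W := act g.1.reverse root

lemma tr_inv (g : W) : tr g (inv g) = root := by
  rw [inv, tr_act, tr_root]
  have := act_reverse' g.1 root
  rwa [act_root] at this

lemma tr_inv' (g : W) : tr (inv g) g = root := by
  rw [tr, inv, act_reverse]

lemma tr_of_root (w : W) : tr root w = w := act_root w

/-- The translation as a graph automorphism. -/
def trIso (g : W) : T ≃g T where
  toFun := tr g
  invFun := tr (inv g)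
  left_inv w := by rw [tr_tr, tr_inv', tr_of_root]
  right_inv w := by rw [tr_tr, tr_inv, tr_of_root]
  map_rel_iff' := by
    intro u v
    constructor
    · rintro ⟨s, h⟩
      refine ⟨s, ?_⟩
      have h2 : tr (inv g) (tr g (step s u)) = tr (inv g) (tr g v) := by
        rw [tr_step]; exact congrArg _ h
      simpa [tr_tr, tr_inv', tr_of_root] using h2
    · rintro ⟨s, h⟩
      refine ⟨s, ?_⟩
      change step s (tr g u) = tr g v
      rw [← h, tr_step]

@[simp] lemma trIso_apply (g w : W) : trIso g w = tr g w := rfl

lemma tr_injective (g : W) : Function.Injective (tr g) := (trIso g).injective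

/-- walks change the length by at most one per step -/
lemma len_le_walk {u v : W} (p : T.Walk u v) : len v ≤ len u + p.length := by
  induction p with
  | nil => simp
  | cons h p ih =>
    rename_i a b c
    simp only [SimpleGraph.Walk.length_cons]
    obtain ⟨s, hs⟩ := h
    have h1 := len_step_le s a
    rw [hs] at h1
    omega

lemma reachable_root (w : W) : T.Reachable root w := by
  rw [← act_root w]
  generalize w.1 = l
  induction l with
  | nil => exact SimpleGraph.Reachable.refl _
  | cons s l ih => exact ih.trans (SimpleGraph.Adj.reachable ⟨s, rfl⟩)

lemma connected_T : T.Connected := by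
  have : Nonempty W := ⟨root⟩
  exact ⟨fun u v => (reachable_root u).symm.trans (reachable_root v)⟩

lemma len_le_dist (v : W) : len v ≤ T.dist root v := by
  obtain ⟨p, hp⟩ := connected_T.exists_walk_length_eq_dist root v
  have := len_le_walk p
  rw [hp] at this
  simpa [len, root] using this

/-- the parent relation: removing an edge separates. -/
lemma isAcyclic_T : T.IsAcyclic := by
  rw [SimpleGraph.isAcyclic_iff_forall_adj_isBridge]
  -- it suffices to treat edges from `w` to `s :: w`
  have key : ∀ (w : W) (s : Fin 3), len (step s w) = len w + 1 → T.IsBridge s(w, step s w) := by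
    intro w s hlen
    rw [SimpleGraph.isBridge_iff]
    intro hreach
    -- the invariant: having `step s w` as a suffix
    have inv : ∀ x y : W, (T.deleteEdges {s(w, step s w)}).Adj x y →
        (step s w).1 <:+ x.1 → (step s w).1 <:+ y.1 := by
      intro x y hxy hx
      rw [SimpleGraph.deleteEdges_adj] at hxy
      obtain ⟨⟨t, ht⟩, hne⟩ := hxy
      have hval : (step s w).1 = s :: w.1 := by
        obtain ⟨l, h⟩ := w
        cases l with
        | nil => simp [step]
        | cons a l =>
          by_cases hs : s = a
          · simp [step, hs, len] at hlen; omega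
          · simp [step, hs]
      obtain ⟨lx, hlx⟩ := x
      cases lx with
      | nil =>
        rw [hval] at hx
        simp at hx
      | cons a lx =>
        by_cases hta : t = a
        · subst hta
          have hy : y.1 = lx := by rw [← ht]; simp [step]
          rw [hy]
          rw [hval] at hx ⊢
          rcases List.suffix_cons_iff.1 hx with h1 | h1
          · exfalso
            apply hne
            simp only [Set.mem_singleton_iff]
            have h2 : step s w = ⟨t :: lx, hlx⟩ := Subtype.ext (by rw [hval]; exact h1)
            have h3 : w = y := Subtype.ext (by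
              rw [hy]; exact (List.cons_eq_cons.1 h1).2)
            rw [h2, h3]
            exact Sym2.eq_swap
          · exact h1
        · have hy : y.1 = t :: a :: lx := by rw [← ht]; simp [step, hta]
          rw [hy]
          exact hx.trans (List.suffix_cons _ _)
    have inv2 : ∀ x y : W, (T.deleteEdges {s(w, step s w)}).Reachable x y →
        (step s w).1 <:+ x.1 → (step s w).1 <:+ y.1 := by
      intro x y hxy
      obtain ⟨p⟩ := hxy
      induction p with
      | nil => exact id
      | cons h p ih => exact fun hx => ih (inv _ _ h hx)
    have := inv2 _ _ hreach.symm (List.suffix_refl _)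
    have h4 := this.length_le
    change len (step s w) ≤ len w at h4
    omega
  intro v w hvw
  obtain ⟨s, hs⟩ := hvw
  rcases len_step s v with h | h
  · rw [← hs]; exact key v s h
  · have h2 : step s w = v := by rw [← hs, step_step]
    have h3 : len (step s w) = len w + 1 := by rw [h2]; rw [hs] at h; exact h
    have := key w s h3
    rw [h2] at this
    rw [Sym2.eq_swap]
    exact this

lemma isTree_T : T.IsTree := ⟨connected_T, isAcyclic_T⟩

end Pool.Agent.TreeFinitary
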