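import Mathlib
import Pool.Agent.TreeFinitary.Tree

set_option autoImplicit false

/-!
# The 1-dependent Gaussian field on the 3-regular tree
-/

open MeasureTheory ProbabilityTheory Filter
open scoped Topology ENNReal NNReal

namespace Pool.Agent.TreeFinitary

section General

variable {Ω S : Type*} {mΩ : MeasurableSpace Ω} {P : Measure Ω}

/-- Two real Gaussian processes with the same means and covariances have the same law. -/
lemma map_eq_of_cov {X Y : S → Ω → ℝ} (hX : IsGaussianProcess X P) (hY : IsGaussianProcess Y P)
    (mX : ∀ t, Measurable (X t)) (mY : ∀ t, Measurable (Y t))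
    (hm : ∀ t, P[X t] = P[Y t]) (hc : ∀ s t, cov[X s, X t; P] = cov[Y s, Y t; P]) :
    P.map (fun ω t => X t ω) = P.map (fun ω t => Y t ω) := by
  have := hX.isProbabilityMeasure
  rw [map_eq_iff_forall_finset_map_restrict_eq (measurable_pi_lambda _ mX).aemeasurable
    (measurable_pi_lambda _ mY).aemeasurable]
  intro I
  have hXI := hX.hasGaussianLaw I
  have hYI := hY.hasGaussianLaw I
  have := hXI.isGaussian_map
  have := hYI.isGaussian_map
  apply Measure.ext_of_charFunDual
  ext L
  rw [hXI.charFunDual_map_eq_fun, hYI.charFunDual_map_eq_fun]
  classical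
  have hL : ∀ (Z : S → Ω → ℝ) (ω : Ω), L (I.restrict (fun t => Z t ω)) =
      ∑ i : I, L (Pi.single i 1) * Z i ω := by
    intro Z ω
    have h1 : (I.restrict (fun t => Z t ω)) = ∑ i : I, (Z i ω) • (Pi.single i (1:ℝ) : I → ℝ) := by
      ext j
      simp [Finset.sum_apply, Pi.single_apply]
    rw [h1, map_sum]
    simp [mul_comm]
  have m2X : ∀ i, MemLp (X i) 2 P := fun i => (hX.hasGaussianLaw_eval i).memLp_two
  have m2Y : ∀ i, MemLp (Y i) 2 P := fun i => (hY.hasGaussianLaw_eval i).memLp_two
  have hmean : ∫ ω, L (I.restrict (fun t => X t ω)) ∂P = ∫ ω, L (I.restrict (fun t => Y t ω)) ∂P := by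
    simp_rw [hL]
    rw [integral_finsetSum, integral_finsetSum]
    · refine Finset.sum_congr rfl fun i _ => ?_
      rw [integral_const_mul, integral_const_mul, hm]
    · intro i _; exact ((m2Y i).integrable (by norm_num)).const_mul _
    · intro i _; exact ((m2X i).integrable (by norm_num)).const_mul _
  have hvar : Var[fun ω => L (I.restrict (fun t => X t ω)); P] =
      Var[fun ω => L (I.restrict (fun t => Y t ω)); P] := by
    simp_rw [hL]
    rw [← covariance_self (by fun_prop), ← covariance_self (by fun_prop)]
    rw [covariance_fun_sum_fun_sum, covariance_fun_sum_fun_sum]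
    · refine Finset.sum_congr rfl fun i _ => Finset.sum_congr rfl fun j _ => ?_
      rw [covariance_const_mul_left, covariance_const_mul_right, covariance_const_mul_left,
        covariance_const_mul_right, hc]
    · intro i; exact (m2Y i).const_mul _
    · intro i; exact (m2Y i).const_mul _
    · intro i; exact (m2X i).const_mul _
    · intro i; exact (m2X i).const_mul _
  rw [hmean, hvar]

end General

/-- the probability space of i.i.d. standard Gaussians indexed by vertices and copies -/
noncomputable def PG : Measure (W × ℕ → ℝ) :=
  Measure.infinitePi (fun _ : W × ℕ => gaussianReal 0 1)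

instance : IsProbabilityMeasure PG := by unfold PG; infer_instance

lemma iIndep_coord : iIndepFun (fun (t : W × ℕ) (ω : W × ℕ → ℝ) => ω t) PG := by
  unfold PG
  exact iIndepFun_infinitePi (X := fun _ => id) (fun _ => measurable_id)

lemma map_coord (t : W × ℕ) : PG.map (fun ω => ω t) = gaussianReal 0 1 := by
  unfold PG
  exact Measure.infinitePi_map_eval _ t

lemma gaussian_coord : IsGaussianProcess (fun (t : W × ℕ) (ω : W × ℕ → ℝ) => ω t) PG where
  hasGaussianLaw I := by
    have h1 : iIndepFun (fun (t : I) (ω : W × ℕ → ℝ) => ω t) PG :=
      iIndep_coord.precomp Subtype.val_injective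
    refine iIndepFun.hasGaussianLaw (fun i => ?_) h1
    constructor
    have := map_coord i.1
    change IsGaussian (PG.map (fun ω => ω i.1))
    rw [this]
    infer_instance

lemma memLp_coord (t : W × ℕ) : MemLp (fun (ω : W × ℕ → ℝ) => ω t) 2 PG :=
  (gaussian_coord.hasGaussianLaw_eval t).memLp_two

lemma integral_coord (t : W × ℕ) : ∫ ω, ω t ∂PG = 0 := by
  have h : ∫ x, x ∂(PG.map (fun ω => ω t)) = ∫ ω, ω t ∂PG := by
    rw [integral_map (measurable_pi_apply t).aemeasurable (by fun_prop)]
  rw [← h, map_coord]
  simp

lemma cov_coord (t t' : W × ℕ) :
    cov[fun ω => ω t, fun ω => ω t'; PG] = if t = t' then 1 else 0 := by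
  by_cases h : t = t'
  · subst h
    rw [covariance_self (measurable_pi_apply t).aemeasurable]
    simp only [if_true]
    have : Var[fun x : ℝ => x; PG.map (fun ω => ω t)] = Var[fun ω => ω t; PG] := by
      exact variance_map (X := fun x : ℝ => x) (μ := PG) (Y := fun ω => ω t) (by fun_prop)
        (measurable_pi_apply t).aemeasurable
    rw [← this, map_coord]
    simp
  · rw [if_neg h]
    exact (iIndep_coord.indepFun h).covariance_eq_zero (memLp_coord t) (memLp_coord t')

/-- sites used by `X_u` -/
def site (u : W) : Option (Fin 3) → W
  | none => u
  | some s => step s u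

/-- coefficients used by `X_u` -/
noncomputable def coef (u : W) : Option (Fin 3) → ℝ
  | none => if u = root then √5 else 3
  | some s => if len (step s u) = len u + 1 then -2 else 0

/-- the field -/
noncomputable def X (t : W × ℕ) (ω : W × ℕ → ℝ) : ℝ :=
  ∑ i : Option (Fin 3), coef t.1 i * ω (site t.1 i, t.2)

lemma measurable_X (t : W × ℕ) : Measurable (X t) := by
  unfold X; fun_prop

/-- the covariance kernel -/
noncomputable def C (u v : W) : ℝ := if u = v then 17 else if T.Adj u v then -6 else 0

lemma child_val {u : W} {s : Fin 3} (h : len (step s u) = len u + 1) :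
    (step s u).1 = s :: u.1 := by
  obtain ⟨l, hl⟩ := u
  cases l with
  | nil => simp [step]
  | cons a l =>
    by_cases hs : s = a
    · simp [step, hs, len] at h; omega
    · simp [step, hs]

lemma sum_children (u : W) (h : u ≠ root) :
    ∑ s : Fin 3, (if len (step s u) = len u + 1 then (4:ℝ) else 0) = 8 := by
  obtain ⟨l, hl⟩ := u
  cases l with
  | nil => exact absurd rfl h
  | cons a l =>
    have : ∀ s : Fin 3, (if len (step s ⟨a :: l, hl⟩) = len (⟨a :: l, hl⟩ : W) + 1 then (4:ℝ) else 0)
        = if s = a then 0 else 4 := by
      intro s
      by_cases hs : s = a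
      · rw [if_pos hs]
        rw [if_neg]
        simp [step, hs, len]; omega
      · rw [if_neg hs, if_pos]
        simp [step, hs, len]
    simp_rw [this]
    fin_cases a <;> simp [Fin.sum_univ_three] <;> norm_num

lemma sum_children_root :
    ∑ s : Fin 3, (if len (step s root) = len root + 1 then (4:ℝ) else 0) = 12 := by
  have : ∀ s : Fin 3, (if len (step s root) = len root + 1 then (4:ℝ) else 0) = 4 := by
    intro s
    rw [if_pos]
    simp [step, root, len]
  simp_rw [this]
  simp; norm_num

lemma coef_root_sq (u : W) : coef u none * coef u none = if u = root then 5 else 9 := by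
  by_cases h : u = root
  · simp [coef, h]
  · simp [coef, h]; norm_num

lemma gram (u v : W) :
    ∑ i : Option (Fin 3), ∑ i' : Option (Fin 3),
      coef u i * coef v i' * (if site u i = site v i' then 1 else 0) = C u v := by
  have hsib : ∀ s t : Fin 3, u ≠ v →
      coef u (some s) * coef v (some t) * (if site u (some s) = site v (some t) then (1:ℝ) else 0)
        = 0 := by
    intro s t huv
    by_cases hs : len (step s u) = len u + 1
    · by_cases ht : len (step t v) = len v + 1
      · rw [if_neg, mul_zero]
        intro h
        change step s u = step t v at h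
        have h1 := child_val hs
        have h2 := child_val ht
        rw [h, h2] at h1
        exact huv (Subtype.ext (List.cons_eq_cons.1 h1).2.symm)
      · simp [coef, ht]
    · simp [coef, hs]
  by_cases huv : u = v
  · subst huv
    have hself : ∀ s t : Fin 3,
        coef u (some s) * coef u (some t) * (if site u (some s) = site u (some t) then (1:ℝ) else 0)
          = if s = t then (if len (step s u) = len u + 1 then 4 else 0) else 0 := by
      intro s t
      by_cases hst : s = t
      · subst hst
        by_cases hs : len (step s u) = len u + 1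
        · simp [coef, hs]; norm_num
        · simp [coef, hs]
      · rw [if_neg hst, if_neg, mul_zero]
        intro h
        exact hst (step_injective u h)
    have h0 : ∀ s : Fin 3, (if site u none = site u (some s) then (1:ℝ) else 0) = 0 := by
      intro s
      rw [if_neg]
      exact fun h => step_ne s u h.symm
    have h0' : ∀ s : Fin 3, (if site u (some s) = site u none then (1:ℝ) else 0) = 0 := by
      intro s
      rw [if_neg]
      exact fun h => step_ne s u h
    rw [Fintype.sum_option, Fintype.sum_option]
    simp_rw [Fintype.sum_option, h0, h0', hself]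
    simp only [if_true, mul_one, mul_zero, Finset.sum_const_zero, add_zero, zero_add,
      Finset.sum_ite_eq, Finset.mem_univ]
    rw [coef_root_sq]
    by_cases h : u = root
    · subst h
      rw [sum_children_root]
      simp [C]; norm_num
    · rw [sum_children u h]
      simp [C, h]; norm_num
  · rw [Fintype.sum_option, Fintype.sum_option]
    simp_rw [Fintype.sum_option, hsib _ _ huv]
    have h1 : (if site u none = site v none then (1:ℝ) else 0) = 0 := by
      rw [if_neg]; exact huv
    rw [h1]
    simp only [mul_zero, zero_add, Finset.sum_const_zero, add_zero]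
    by_cases hadj : T.Adj u v
    · rw [C, if_neg huv, if_pos hadj]
      obtain ⟨s₀, hs₀⟩ := hadj
      have hs₁ : step s₀ v = u := by rw [← hs₀, step_step]
      have e1 : ∀ s : Fin 3, (site u none = site v (some s)) ↔ s = s₀ := by
        intro s
        constructor
        · intro h
          change u = step s v at h
          exact step_injective v (h.symm.trans hs₁.symm)
        · intro h; subst h; exact hs₁.symm
      have e2 : ∀ s : Fin 3, (site u (some s) = site v none) ↔ s = s₀ := by
        intro s
        constructor
        · intro h
          change step s u = v at h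
          exact step_injective u (h.trans hs₀.symm)
        · intro h; subst h; exact hs₀
      simp_rw [e1, e2]
      simp only [mul_ite, mul_one, mul_zero, Finset.sum_ite_eq', Finset.mem_univ, if_true]
      rcases len_step s₀ u with h | h
      · have hv : v ≠ root := by
          intro h'
          rw [hs₀, h'] at h
          simp [len, root] at h
        have h2 : ¬ (len (step s₀ v) = len v + 1) := by
          rw [hs₁, ← hs₀]; omega
        simp only [coef, h, h2, hv, if_true, if_false]
        norm_num
      · have hu : u ≠ root := by
          intro h'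
          rw [h'] at h
          simp [len, root] at h
        have h2 : len (step s₀ v) = len v + 1 := by
          rw [hs₁, ← hs₀]; exact h
        have h3 : ¬ (len (step s₀ u) = len u + 1) := by omega
        simp only [coef, h2, h3, hu, if_true, if_false]
        norm_num
    · rw [C, if_neg huv, if_neg hadj]
      have e1 : ∀ s : Fin 3, ¬ (site u none = site v (some s)) := by
        intro s h
        exact hadj ⟨s, by change u = step s v at h; rw [h, step_step]⟩
      have e2 : ∀ s : Fin 3, ¬ (site u (some s) = site v none) := by
        intro s h
        exact hadj ⟨s, h⟩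
      simp [e1, e2]

lemma cov_X (t t' : W × ℕ) :
    cov[X t, X t'; PG] = if t.2 = t'.2 then C t.1 t'.1 else 0 := by
  unfold X
  rw [covariance_fun_sum_fun_sum]
  · simp_rw [covariance_const_mul_left, covariance_const_mul_right, cov_coord]
    by_cases h : t.2 = t'.2
    · rw [if_pos h, ← gram]
      refine Finset.sum_congr rfl fun i _ => Finset.sum_congr rfl fun j _ => ?_
      simp [h]
    · rw [if_neg h]
      refine Finset.sum_eq_zero fun i _ => Finset.sum_eq_zero fun j _ => ?_
      simp [h]
  · intro i; exact (memLp_coord _).const_mul _
  · intro i; exact (memLp_coord _).const_mul _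

lemma gaussian_X : IsGaussianProcess X PG := by
  classical
  refine gaussian_coord.of_isGaussianProcess fun t => ?_
  refine ⟨Finset.univ.image (fun i => (site t.1 i, t.2)), 
    ∑ i : Option (Fin 3), (coef t.1 i) • (ContinuousLinearMap.proj (R := ℝ) 
      (φ := fun _ : (Finset.univ.image (fun i => (site t.1 i, t.2)) : Finset (W × ℕ)) => ℝ)
      ⟨(site t.1 i, t.2), Finset.mem_image_of_mem _ (Finset.mem_univ i)⟩), fun ω => ?_⟩
  simp [X]

lemma mean_X (t : W × ℕ) : ∫ ω, X t ω ∂PG = 0 := by
  unfold X
  rw [integral_finsetSum]
  · refine Finset.sum_eq_zero fun i _ => ?_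
    rw [integral_const_mul, integral_coord, mul_zero]
  · intro i _; exact ((memLp_coord _).integrable (by norm_num)).const_mul _

end Pool.Agent.TreeFinitary
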