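import Mathlib
import Pool.Agent.TreeFinitary.Gauss

set_option autoImplicit false

/-!
# The law of the field: invariance, 1-dependence, law of large numbers
-/

open MeasureTheory ProbabilityTheory Filter
open scoped Topology ENNReal NNReal

namespace Pool.Agent.TreeFinitary

/-- the field as a random element of `W → ℕ → ℝ` -/
noncomputable def Z (ω : W × ℕ → ℝ) : W → ℕ → ℝ := fun v j => X (v, j) ω

lemma measurable_Z : Measurable Z := by
  unfold Z
  refine measurable_pi_lambda _ fun v => measurable_pi_lambda _ fun j => measurable_X _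

/-- the law of the field -/
noncomputable def muF : Measure (W → ℕ → ℝ) := PG.map Z

instance : IsProbabilityMeasure muF := by
  unfold muF
  exact Measure.isProbabilityMeasure_map measurable_Z.aemeasurable

lemma C_iso (φ : T ≃g T) (u v : W) : C (φ u) (φ v) = C u v := by
  unfold C
  simp only [φ.injective.eq_iff, φ.map_adj_iff]

lemma muF_invariant (φ : T ≃g T) : muF.map (fun x : W → ℕ → ℝ => fun v => x (φ v)) = muF := by
  unfold muF
  rw [Measure.map_map (by fun_prop) measurable_Z]
  have h1 : IsGaussianProcess (fun t : W × ℕ => X (φ t.1, t.2)) PG :=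
    gaussian_X.comp_right (fun t : W × ℕ => (φ t.1, t.2))
  have h2 := map_eq_of_cov (P := PG) h1 gaussian_X (fun t => measurable_X _)
    (fun t => measurable_X _) (fun t => by rw [mean_X, mean_X]) (fun s t => by
      rw [cov_X, cov_X, C_iso])
  have h3 : Measurable (fun (f : W × ℕ → ℝ) (v : W) (j : ℕ) => f (v, j)) := by fun_prop
  have h4 : Measurable (fun (ω : W × ℕ → ℝ) (t : W × ℕ) => X (φ t.1, t.2) ω) :=
    measurable_pi_lambda _ fun t => measurable_X _
  have h5 : Measurable (fun (ω : W × ℕ → ℝ) (t : W × ℕ) => X t ω) :=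
    measurable_pi_lambda _ fun t => measurable_X _
  have h6 := congrArg (Measure.map (fun (f : W × ℕ → ℝ) (v : W) (j : ℕ) => f (v, j))) h2
  rw [Measure.map_map h3 h4, Measure.map_map h3 h5] at h6
  exact h6

lemma muF_indep (A B : Set W) (h : ∀ a ∈ A, ∀ b ∈ B, 1 < T.dist a b) :
    Indep (MeasurableSpace.comap (fun x : W → ℕ → ℝ => fun a : A => x a) inferInstance)
      (MeasurableSpace.comap (fun x : W → ℕ → ℝ => fun b : B => x b) inferInstance) muF := by
  have hA : Measurable (fun x : W → ℕ → ℝ => fun a : A => x a) := by fun_prop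
  have hB : Measurable (fun x : W → ℕ → ℝ => fun b : B => x b) := by fun_prop
  have key : IndepFun (fun (ω : W × ℕ → ℝ) (t : A × ℕ) => X (t.1.1, t.2) ω)
      (fun (ω : W × ℕ → ℝ) (t : B × ℕ) => X (t.1.1, t.2) ω) PG := by
    refine IsGaussianProcess.indepFun_of_covariance_eq_zero (X := fun t : A × ℕ => X (t.1.1, t.2))
      (Y := fun t : B × ℕ => X (t.1.1, t.2)) ?_ ?_ ?_ ?_
    · have := gaussian_X.comp_right
        (Sum.elim (fun t : A × ℕ => (t.1.1, t.2)) (fun t : B × ℕ => (t.1.1, t.2)))
      have e : (Sum.elim (fun t : A × ℕ => X (t.1.1, t.2)) (fun t : B × ℕ => X (t.1.1, t.2))) =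
          X ∘ (Sum.elim (fun t : A × ℕ => (t.1.1, t.2)) (fun t : B × ℕ => (t.1.1, t.2))) := by
        funext t
        rcases t with t | t <;> rfl
      rw [e]
      exact this
    · exact fun s => (measurable_X _).aemeasurable
    · exact fun s => (measurable_X _).aemeasurable
    · intro s t
      rw [cov_X]
      have hd := h s.1.1 s.1.2 t.1.1 t.1.2
      have hne : s.1.1 ≠ t.1.1 := by
        intro he
        rw [he, SimpleGraph.dist_self] at hd
        omega
      have hna : ¬ T.Adj s.1.1 t.1.1 := by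
        intro he
        rw [SimpleGraph.dist_eq_one_iff_adj.2 he] at hd
        omega
      simp [C, hne, hna]
  have key2 : IndepFun ((fun x : W → ℕ → ℝ => fun a : A => x a) ∘ Z)
      ((fun x : W → ℕ → ℝ => fun b : B => x b) ∘ Z) PG := by
    have := key.comp (φ := fun (f : A × ℕ → ℝ) (a : A) (j : ℕ) => f (a, j))
      (ψ := fun (f : B × ℕ → ℝ) (b : B) (j : ℕ) => f (b, j)) (by fun_prop) (by fun_prop)
    exact this
  rw [Indep_iff]
  rintro _ _ ⟨s, hs, rfl⟩ ⟨t, ht, rfl⟩
  have h1 := (indepFun_iff_measure_inter_preimage_eq_mul.1 key2) s t hs ht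
  unfold muF
  rw [Measure.map_apply measurable_Z ((hA hs).inter (hB ht)), Measure.map_apply measurable_Z (hA hs),
    Measure.map_apply measurable_Z (hB ht)]
  exact h1

lemma memLp_X (t : W × ℕ) : MemLp (X t) 2 PG := (gaussian_X.hasGaussianLaw_eval t).memLp_two

lemma integral_X_mul (t t' : W × ℕ) : ∫ ω, X t ω * X t' ω ∂PG = if t.2 = t'.2 then C t.1 t'.1 else 0 := by
  have h := covariance_eq_sub (memLp_X t) (memLp_X t')
  rw [mean_X, mean_X, cov_X] at h
  simp only [mul_zero, sub_zero, Pi.mul_apply] at h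
  exact h.symm

lemma muF_lln (u v : W) : ∀ᵐ x ∂muF,
    Tendsto (fun n : ℕ => (∑ j ∈ Finset.range n, x u j * x v j) / (n : ℝ)) atTop (𝓝 (C u v)) := by
  have h1 : ∀ᵐ ω ∂PG, Tendsto
      (fun n : ℕ => (∑ j ∈ Finset.range n, X (u, j) ω * X (v, j) ω) / (n : ℝ)) atTop (𝓝 (C u v)) := by
    have hproc : iIndepFun (fun (j : ℕ) (ω : W × ℕ → ℝ) (w : W) => X (w, j) ω) PG := by
      refine IsGaussianProcess.iIndepFun_of_covariance_eq_zero
        (X := fun (j : ℕ) (w : W) => X (w, j)) ?_ ?_ ?_
      · exact gaussian_X.comp_right (fun p : (_ : ℕ) × W => (p.2, p.1))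
      · exact fun _ _ => (measurable_X _).aemeasurable
      · intro j k hjk w w'
        rw [cov_X]
        simp [hjk]
    have hind : iIndepFun (fun (j : ℕ) (ω : W × ℕ → ℝ) => X (u, j) ω * X (v, j) ω) PG := by
      have := hproc.comp (fun (_ : ℕ) (f : W → ℝ) => f u * f v) (fun _ => by fun_prop)
      exact this
    have hident : ∀ j : ℕ, IdentDistrib (fun ω => X (u, j) ω * X (v, j) ω)
        (fun ω => X (u, 0) ω * X (v, 0) ω) PG PG := by
      intro j
      have h2 := map_eq_of_cov (P := PG) (gaussian_X.comp_right (fun w : W => (w, j)))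
        (gaussian_X.comp_right (fun w : W => (w, 0))) (fun t => measurable_X _)
        (fun t => measurable_X _) (fun t => by
          simp only [Function.comp_apply]; rw [mean_X, mean_X]) (fun s t => by
          simp only [Function.comp_apply]; rw [cov_X, cov_X]; simp)
      have h3 : IdentDistrib (fun (ω : W × ℕ → ℝ) (w : W) => X (w, j) ω)
          (fun (ω : W × ℕ → ℝ) (w : W) => X (w, 0) ω) PG PG :=
        ⟨(measurable_pi_lambda _ fun t => measurable_X _).aemeasurable,
          (measurable_pi_lambda _ fun t => measurable_X _).aemeasurable, h2⟩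
      exact h3.comp (u := fun f : W → ℝ => f u * f v) (by fun_prop)
    have := strong_law_ae_real (fun (j : ℕ) (ω : W × ℕ → ℝ) => X (u, j) ω * X (v, j) ω)
      ((memLp_X _).integrable_mul (memLp_X _)) (fun i j hij => hind.indepFun hij) hident
    rw [integral_X_mul] at this
    simpa using this
  unfold muF
  rw [ae_map_iff measurable_Z.aemeasurable]
  · exact h1
  · refine measurableSet_tendsto (𝓝 (C u v)) (f := fun (n : ℕ) (x : W → ℕ → ℝ) =>
      (∑ j ∈ Finset.range n, x u j * x v j) / (n : ℝ)) (fun n => by fun_prop)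

end Pool.Agent.TreeFinitary
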