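import Mathlib

set_option autoImplicit false

/-!
# Local versions of a finitary map on i.i.d. labels
-/

open MeasureTheory ProbabilityTheory Filter
open scoped Topology ENNReal NNReal

namespace Pool.Agent.TreeFinitary

/-- i.i.d. uniform labels -/
noncomputable abbrev lam (V : Type) : Measure (V → unitInterval) :=
  Measure.infinitePi (fun _ : V => (volume : Measure unitInterval))

section

variable {V : Type} [DecidableEq V] {S : Type} [MeasurableSpace S] [StandardBorelSpace S]

/-- use `y` on `B` and `z` outside -/
def splice (B : Finset V) (y z : V → unitInterval) : V → unitInterval :=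
  fun v => if v ∈ B then y v else z v

lemma measurable_splice (B : Finset V) :
    Measurable (fun p : (V → unitInterval) × (V → unitInterval) => splice B p.1 p.2) := by
  refine measurable_pi_lambda _ fun v => ?_
  unfold splice
  by_cases h : v ∈ B
  · simp only [h, if_true]; fun_prop
  · simp only [h, if_false]; fun_prop

lemma splice_congr {B : Finset V} {y y' : V → unitInterval} (h : ∀ v ∈ B, y' v = y v)
    (z : V → unitInterval) : splice B y' z = splice B y z := by
  funext v
  unfold splice
  by_cases hv : v ∈ B
  · simp [hv, h v hv]
  · simp [hv]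

lemma splice_apply_mem {B : Finset V} {v : V} (hv : v ∈ B) (y z : V → unitInterval) :
    splice B y z v = y v := by simp [splice, hv]

lemma splice_splice (B : Finset V) (y z z' : V → unitInterval) :
    splice B (splice B y z) z' = splice B y z' :=
  splice_congr (fun _ hv => splice_apply_mem hv _ _) _

lemma map_splice (B : Finset V) :
    ((lam V).prod (lam V)).map (fun p => splice B p.1 p.2) = lam V := by
  refine Measure.eq_infinitePi _ fun s t ht => ?_
  have hms : MeasurableSet (Set.pi (s : Set V) t) :=
    MeasurableSet.pi s.countable_toSet fun i _ => ht i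
  rw [Measure.map_apply (measurable_splice B) hms]
  have h1 : (fun p : (V → unitInterval) × (V → unitInterval) => splice B p.1 p.2) ⁻¹'
      (Set.pi (s : Set V) t) = (Set.pi ((s.filter (· ∈ B) : Finset V) : Set V) t) ×ˢ
        (Set.pi ((s.filter (· ∉ B) : Finset V) : Set V) t) := by
    ext ⟨y, z⟩
    simp only [Set.mem_preimage, Set.mem_pi, Finset.mem_coe, splice, Set.mem_prod,
      Finset.mem_filter, and_imp]
    constructor
    · intro h
      refine ⟨fun i hi hB => ?_, fun i hi hB => ?_⟩
      · have := h i hi; rwa [if_pos hB] at this
      · have := h i hi; rwa [if_neg hB] at this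
    · rintro ⟨h, h'⟩ i hi
      by_cases hB : i ∈ B
      · rw [if_pos hB]; exact h i hi hB
      · rw [if_neg hB]; exact h' i hi hB
  rw [h1, Measure.prod_prod, Measure.infinitePi_pi _ (fun i _ => ht i),
    Measure.infinitePi_pi _ (fun i _ => ht i)]
  exact Finset.prod_filter_mul_prod_filter_not s (· ∈ B) _

/-- configurations for which the value of `f` is almost surely determined by the labels in `B` -/
def Det (B : Finset V) (f : (V → unitInterval) → S) : Set (V → unitInterval) :=
  {y | ∀ᵐ p ∂((lam V).prod (lam V)), f (splice B y p.1) = f (splice B y p.2)}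

omit [MeasurableSpace S] [StandardBorelSpace S] in
lemma det_congr {B : Finset V} (f : (V → unitInterval) → S) {y y' : V → unitInterval}
    (h : ∀ v ∈ B, y' v = y v) : y' ∈ Det B f ↔ y ∈ Det B f := by
  unfold Det
  simp only [Set.mem_ofPred_eq, splice_congr h]

omit [MeasurableSpace S] [StandardBorelSpace S] in
lemma det_of_good {B : Finset V} (f : (V → unitInterval) → S) {y : V → unitInterval}
    (h : ∀ y' : V → unitInterval, (∀ v ∈ B, y' v = y v) → f y' = f y) : y ∈ Det B f := by
  change ∀ᵐ p ∂((lam V).prod (lam V)), f (splice B y p.1) = f (splice B y p.2)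
  refine Eventually.of_forall fun p => ?_
  rw [h _ (fun v hv => splice_apply_mem hv _ _), h _ (fun v hv => splice_apply_mem hv _ _)]

lemma measurableSet_bad (B : Finset V) {f : (V → unitInterval) → S} (hf : Measurable f) :
    MeasurableSet {q : (V → unitInterval) × ((V → unitInterval) × (V → unitInterval)) |
      f (splice B q.1 q.2.1) ≠ f (splice B q.1 q.2.2)} := by
  refine (measurableSet_eq_fun ?_ ?_).compl
  · exact hf.comp ((measurable_splice B).comp (by fun_prop : Measurable
      (fun q : (V → unitInterval) × ((V → unitInterval) × (V → unitInterval)) => (q.1, q.2.1))))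
  · exact hf.comp ((measurable_splice B).comp (by fun_prop : Measurable
      (fun q : (V → unitInterval) × ((V → unitInterval) × (V → unitInterval)) => (q.1, q.2.2))))

lemma measurableSet_det (B : Finset V) {f : (V → unitInterval) → S} (hf : Measurable f) :
    MeasurableSet (Det B f) := by
  have h := measurable_measure_prodMk_left (ν := (lam V).prod (lam V)) (measurableSet_bad B hf)
  have h2 : Det B f = (fun y => ((lam V).prod (lam V)) (Prod.mk y ⁻¹'
      {q : (V → unitInterval) × ((V → unitInterval) × (V → unitInterval)) |
      f (splice B q.1 q.2.1) ≠ f (splice B q.1 q.2.2)})) ⁻¹' {0} := by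
    ext y
    simp only [Det, Set.mem_ofPred_eq, Set.mem_preimage, Set.mem_singleton_iff, ae_iff]
    rfl
  rw [h2]
  exact h (measurableSet_singleton 0)

lemma exists_local (B : Finset V) {f : (V → unitInterval) → S} (hf : Measurable f) :
    ∃ z₀ : V → unitInterval, ∀ᵐ y ∂(lam V), y ∈ Det B f → f y = f (splice B y z₀) := by
  -- the triple product statement
  have hD := measurableSet_det B hf
  let P : (V → unitInterval) × (V → unitInterval) → Prop :=
    fun q => q.1 ∈ Det B f → f q.1 = f (splice B q.1 q.2)
  have hP : MeasurableSet {q | P q} := by
    have h1 : {q | P q} = (Prod.fst ⁻¹' (Det B f))ᶜ ∪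
        {q : (V → unitInterval) × (V → unitInterval) | f q.1 = f (splice B q.1 q.2)} := by
      ext q; simp only [P, Set.mem_ofPred_eq, Set.mem_union, Set.mem_compl_iff, Set.mem_preimage]
      tauto
    rw [h1]
    refine ((measurable_fst hD).compl).union (measurableSet_eq_fun (hf.comp measurable_fst) ?_)
    exact hf.comp (measurable_splice B)
  -- the measure preserving map
  have mp1 : MeasurePreserving (fun p : (V → unitInterval) × (V → unitInterval) =>
      splice B p.1 p.2) ((lam V).prod (lam V)) (lam V) := ⟨measurable_splice B, map_splice B⟩
  have mp2 := mp1.prod (MeasurePreserving.id (lam V))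
  have h3 : ∀ᵐ q ∂(((lam V).prod (lam V)).prod (lam V)), P (splice B q.1.1 q.1.2, q.2) := by
    have mp3 := (measurePreserving_prodAssoc (lam V) (lam V) (lam V)).symm
    have h4 : ∀ᵐ q ∂((lam V).prod ((lam V).prod (lam V))),
        P (splice B q.1 q.2.1, q.2.2) := by
      have hms : MeasurableSet {q : (V → unitInterval) × ((V → unitInterval) × (V → unitInterval)) |
          P (splice B q.1 q.2.1, q.2.2)} := by
        refine hP.preimage (f := fun q : (V → unitInterval) ×
          ((V → unitInterval) × (V → unitInterval)) => (splice B q.1 q.2.1, q.2.2)) ?_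
        refine Measurable.prodMk ?_ (by fun_prop)
        exact (measurable_splice B).comp (by fun_prop : Measurable
          (fun q : (V → unitInterval) × ((V → unitInterval) × (V → unitInterval)) => (q.1, q.2.1)))
      have h5 := (Measure.measure_prod_null (μ := lam V) (ν := (lam V).prod (lam V))
        hms.compl).2 ?_
      · exact h5
      · refine Eventually.of_forall fun y => ?_
        change ((lam V).prod (lam V)) _ = 0
        by_cases hy : y ∈ Det B f
        · have h6 : ∀ᵐ p ∂((lam V).prod (lam V)),
              f (splice B y p.1) = f (splice B y p.2) := hy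
          refine measure_mono_null ?_ (ae_iff.1 h6)
          intro p hp
          simp only [P, Set.mem_preimage, Set.mem_compl_iff, Set.mem_ofPred_eq, splice_splice,
            Classical.not_imp] at hp
          exact hp.2
        · convert measure_empty (μ := (lam V).prod (lam V))
          ext p
          simp only [P, Set.mem_preimage, Set.mem_compl_iff, Set.mem_ofPred_eq, splice_splice,
            Set.mem_empty_iff_false, iff_false, not_not]
          intro h
          exact absurd ((det_congr f (fun v hv => splice_apply_mem hv _ _)).1 h) hy
    have h7 := (mp3.symm).quasiMeasurePreserving.ae h4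
    exact h7
  have h8 : ∀ᵐ q ∂((lam V).prod (lam V)), P q := by
    have := mp2.map_eq
    rw [← this, ae_map_iff mp2.measurable.aemeasurable hP]
    exact h3
  have h9 : ∀ᵐ q ∂((lam V).prod (lam V)), P q.swap := by
    have := Measure.prod_swap (μ := lam V) (ν := lam V)
    rw [← this] at h8
    exact ae_of_ae_map measurable_swap.aemeasurable h8
  have h10 := Measure.ae_ae_of_ae_prod h9
  obtain ⟨z₀, hz⟩ := h10.exists
  exact ⟨z₀, hz⟩

end

/-- Transfer of i.i.d. labels along index maps with the same kernel. -/
lemma map_comp_eq {V Q J : Type} (α : J → V) (β : J → Q)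
    (h : ∀ i j, α i = α j ↔ β i = β j) :
    (lam V).map (fun y i => y (α i)) = (lam Q).map (fun y i => y (β i)) := by
  -- factor through the quotient by the kernel
  let K := Quotient (Setoid.ker α)
  let a : K → V := Quotient.lift α (fun _ _ h => h)
  let b : K → Q := Quotient.lift β (fun i j hij => (h i j).1 hij)
  have ha : Function.Injective a := by
    intro x y
    refine Quotient.inductionOn₂ x y fun i j hij => Quotient.sound ?_
    exact hij
  have hb : Function.Injective b := by
    intro x y
    refine Quotient.inductionOn₂ x y fun i j hij => Quotient.sound ?_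
    exact (h i j).2 hij
  have e1 : (lam V).map (fun y (k : K) => y (a k)) = lam K :=
    Measure.map_infinitePi_infinitePi_of_inj ha
  have e2 : (lam Q).map (fun y (k : K) => y (b k)) = lam K :=
    Measure.map_infinitePi_infinitePi_of_inj hb
  have e3 : (lam V).map (fun y i => y (α i)) =
      ((lam V).map (fun y (k : K) => y (a k))).map
        (fun (u : K → unitInterval) (i : J) => u (Quotient.mk _ i)) := by
    rw [Measure.map_map (by fun_prop) (by fun_prop)]
    rfl
  have e4 : (lam Q).map (fun y i => y (β i)) =
      ((lam Q).map (fun y (k : K) => y (b k))).map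
        (fun (u : K → unitInterval) (i : J) => u (Quotient.mk _ i)) := by
    rw [Measure.map_map (by fun_prop) (by fun_prop)]
    rfl
  rw [e3, e4, e1, e2]

end Pool.Agent.TreeFinitary
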