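import Mathlib
import Pool.Agent.TreeFinitary.Tree

set_option autoImplicit false

/-!
# A finite 3-regular edge-coloured graph which locally looks like the tree
-/

namespace Pool.Agent.TreeFinitary

lemma finite_len_le (R : ℕ) : {w : W | len w ≤ R}.Finite := by
  have h := (List.finite_length_le (Fin 3) R)
  exact h.preimage (f := fun w : W => w.1) (Subtype.val_injective.injOn)

/-- ball in the tree -/
noncomputable def ball (R : ℕ) : Finset W := (finite_len_le R).toFinset

lemma mem_ball {R : ℕ} {w : W} : w ∈ ball R ↔ len w ≤ R := by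
  simp [ball]

/-- the ball as a type -/
abbrev BallT (R : ℕ) : Type := {w : W // len w ≤ R}

instance (R : ℕ) : Finite (BallT R) := (finite_len_le R).to_subtype

/-- truncated step -/
def stepB (R : ℕ) (s : Fin 3) (w : BallT R) : BallT R :=
  if h : len (step s w.1) ≤ R then ⟨step s w.1, h⟩ else w

lemma stepB_invol (R : ℕ) (s : Fin 3) : Function.Involutive (stepB R s) := by
  intro w
  unfold stepB
  by_cases h : len (step s w.1) ≤ R
  · simp [h, step_step, w.2]
  · simp [h]

/-- truncated step as a permutation -/
def sig (R : ℕ) (s : Fin 3) : Equiv.Perm (BallT R) := (stepB_invol R s).toPerm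

lemma sig_apply (R : ℕ) (s : Fin 3) (w : BallT R) : sig R s w = stepB R s w := rfl

lemma sig_mul_sig (R : ℕ) (s : Fin 3) : sig R s * sig R s = 1 := by
  ext1 w
  simp [sig_apply, stepB_invol R s w]

lemma sig_mul_cancel (R : ℕ) (s : Fin 3) (q : Equiv.Perm (BallT R)) :
    sig R s * (sig R s * q) = q := by
  rw [← mul_assoc, sig_mul_sig, one_mul]

/-- the finite graph's vertex set -/
abbrev Qt (R : ℕ) : Type := Equiv.Perm (BallT R)

instance (R : ℕ) : Finite (Qt R) := inferInstance

/-- action of words on the finite quotient -/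
def actQ (R : ℕ) (l : List (Fin 3)) (q : Qt R) : Qt R := l.foldr (fun s p => sig R s * p) q

@[simp] lemma actQ_nil (R : ℕ) (q : Qt R) : actQ R [] q = q := rfl
@[simp] lemma actQ_cons (R : ℕ) (s : Fin 3) (l : List (Fin 3)) (q : Qt R) :
    actQ R (s :: l) q = sig R s * actQ R l q := rfl

lemma actQ_append (R : ℕ) (l l' : List (Fin 3)) (q : Qt R) :
    actQ R (l ++ l') q = actQ R l (actQ R l' q) := by
  simp [actQ]

lemma actQ_eq_mul (R : ℕ) (l : List (Fin 3)) (q : Qt R) : actQ R l q = actQ R l 1 * q := by
  induction l with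
  | nil => simp
  | cons s l ih => rw [actQ_cons, actQ_cons, ih, mul_assoc]

lemma actQ_reverse (R : ℕ) (l : List (Fin 3)) (q : Qt R) : actQ R l.reverse (actQ R l q) = q := by
  induction l generalizing q with
  | nil => simp
  | cons s l ih =>
    rw [List.reverse_cons, actQ_append, actQ_cons, actQ_cons, actQ_nil, sig_mul_cancel, ih]

/-- the covering map -/
def cov (R : ℕ) (q : Qt R) (w : W) : Qt R := actQ R w.1 q

lemma cov_root (R : ℕ) (q : Qt R) : cov R q root = q := rfl

lemma cov_step (R : ℕ) (q : Qt R) (s : Fin 3) (w : W) :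
    cov R q (step s w) = sig R s * cov R q w := by
  obtain ⟨l, h⟩ := w
  cases l with
  | nil => simp [step, cov]
  | cons a l =>
    by_cases hs : s = a
    · subst hs
      have h1 : step s ⟨s :: l, h⟩ = ⟨l, h.tail⟩ := by simp [step]
      rw [h1]
      simp only [cov, actQ_cons, sig_mul_cancel]
    · have h1 : step s ⟨a :: l, h⟩ = ⟨s :: a :: l, List.isChain_cons_cons.2 ⟨hs, h⟩⟩ := by
        simp [step, hs]
      rw [h1]
      simp only [cov, actQ_cons]

lemma cov_act (R : ℕ) (q : Qt R) (l : List (Fin 3)) (w : W) :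
    cov R q (act l w) = actQ R l (cov R q w) := by
  induction l with
  | nil => rfl
  | cons s l ih => rw [act_cons, cov_step, ih, actQ_cons]

lemma cov_tr (R : ℕ) (q : Qt R) (g w : W) : cov R q (tr g w) = cov R (cov R q g) w := by
  rw [tr, cov_act]; rfl

/-- the root of the ball -/
def rootB (R : ℕ) : BallT R := ⟨root, by simp [len, root]⟩

lemma actQ_apply_root (R : ℕ) (w : W) (h : len w ≤ R) : (actQ R w.1 1) (rootB R) = ⟨w, h⟩ := by
  obtain ⟨l, hl⟩ := w
  induction l with
  | nil => rfl
  | cons a l ih =>
    have hl' : l.IsChain (· ≠ ·) := hl.tail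
    have h' : len (⟨l, hl'⟩ : W) ≤ R := by
      simp only [len, List.length_cons] at h ⊢; omega
    have := ih hl' h'
    rw [actQ_cons, Equiv.Perm.mul_apply, this, sig_apply, stepB]
    have h1 : step a ⟨l, hl'⟩ = ⟨a :: l, hl⟩ := by
      cases l with
      | nil => simp [step]
      | cons b l =>
        have hb : a ≠ b := (List.isChain_cons_cons.1 hl).1
        simp [step, hb]
    have h2 : len (step a ⟨l, hl'⟩) ≤ R := by rw [h1]; exact h
    simp only [h2, dif_pos]
    exact Subtype.ext h1

lemma cov_inj {R : ℕ} {q : Qt R} {u w : W} (hu : len u ≤ R) (hw : len w ≤ R)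
    (h : cov R q u = cov R q w) : u = w := by
  unfold cov at h
  rw [actQ_eq_mul, actQ_eq_mul R w.1] at h
  have h2 := mul_right_cancel h
  have h3 := actQ_apply_root R u hu
  rw [h2, actQ_apply_root R w hw] at h3
  exact (congrArg Subtype.val h3).symm

lemma len_tr_le (g w : W) : len (tr g w) ≤ len w + len g := len_act_le _ _

/-- Kernel comparison, near case. -/
lemma kernel_near {R r : ℕ} (hR : 3 * r ≤ R) {q : Qt R} {g b b' : W} (hg : len g ≤ 2 * r)
    (hb : len b ≤ r) (hb' : len b' ≤ r) : b = tr g b' ↔ cov R q b = cov R (cov R q g) b' := by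
  rw [← cov_tr]
  constructor
  · intro h; rw [h]
  · intro h
    refine cov_inj (by omega) ?_ h
    have := len_tr_le g b'
    omega

/-- Kernel comparison, far case. -/
lemma kernel_far {R r : ℕ} {q q' : Qt R} (hq : ∀ g : W, len g ≤ 2 * r → cov R q g ≠ q')
    {b b' : W} (hb : len b ≤ r) (hb' : len b' ≤ r) : cov R q b ≠ cov R q' b' := by
  intro h
  refine hq (act b'.1.reverse b) ?_ ?_
  · have := len_act_le b'.1.reverse b
    rw [List.length_reverse] at this
    change len b'  ≤ r at hb'
    have h2 : b'.1.length = len b' := rfl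
    omega
  · rw [cov_act, h]
    exact actQ_reverse R b'.1 q'

lemma far_tr {r : ℕ} {g : W} (hg : 2 * r < len g) {b b' : W} (hb : len b ≤ r) (hb' : len b' ≤ r) :
    b ≠ tr g b' := by
  intro h
  have h1 : g = act b'.1.reverse b := by
    rw [h, tr, act_reverse']
  have := len_act_le b'.1.reverse b
  rw [← h1, List.length_reverse] at this
  have h2 : b'.1.length = len b' := rfl
  omega

/-- there are arbitrarily long reduced words -/
lemma exists_long (n : ℕ) : ∃ g : W, len g = n := by
  have key : ∀ n : ℕ, ∃ g : W, len g = n ∧ (g = root ∨ ∃ s, len (step s g) + 1 = len g) := by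
    intro n
    induction n with
    | zero => exact ⟨root, rfl, Or.inl rfl⟩
    | succ n ih =>
      obtain ⟨g, hg, -⟩ := ih
      have : ∃ s, len (step s g) = len g + 1 := by
        by_contra hcon
        push Not at hcon
        have h0 := (len_step 0 g).resolve_left (hcon 0)
        have h1 := (len_step 1 g).resolve_left (hcon 1)
        obtain ⟨l, hl⟩ := g
        cases l with
        | nil => simp [step, len] at h0
        | cons a l =>
          by_cases ha : (0 : Fin 3) = a
          · subst ha
            simp [step, len] at h1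
          · simp [step, len, ha] at h0
      obtain ⟨s, hs⟩ := this
      refine ⟨step s g, by rw [hs, hg], Or.inr ⟨s, ?_⟩⟩
      rw [step_step, hs]
  obtain ⟨g, hg, -⟩ := key n
  exact ⟨g, hg⟩

end Pool.Agent.TreeFinitary
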