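import Mathlib
import Pool.Agent.TreeFinitary.Field
import Pool.Agent.TreeFinitary.Local
import Pool.Agent.TreeFinitary.Quot

set_option autoImplicit false

/-!
# No finitary coding of the field
-/

open MeasureTheory ProbabilityTheory Filter
open scoped Topology ENNReal NNReal

namespace Pool.Agent.TreeFinitary

/-- the partial averages -/
noncomputable def avg (a b : ℕ → ℝ) (n : ℕ) : ℝ := (∑ j ∈ Finset.range n, a j * b j) / (n : ℝ)

lemma measurable_avg (n : ℕ) : Measurable (fun p : (ℕ → ℝ) × (ℕ → ℝ) => avg p.1 p.2 n) := by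
  unfold avg; fun_prop

/-- Nonnegativity of limits of Gram matrices. -/
lemma gram_nonneg {Q : Type} [Fintype Q] (a : Q → ℕ → ℝ) (c : Q → Q → ℝ) (x : Q → ℝ)
    (hx : ∀ q, x q = 0 ∨ x q = 1)
    (h : ∀ q q', x q = 1 → x q' = 1 → Tendsto (avg (a q) (a q')) atTop (𝓝 (c q q'))) :
    0 ≤ ∑ q, ∑ q', x q * x q' * c q q' := by
  have h1 : Tendsto (fun n : ℕ => ∑ q, ∑ q', x q * x q' * avg (a q) (a q') n) atTop
      (𝓝 (∑ q, ∑ q', x q * x q' * c q q')) := by
    refine tendsto_finsetSum _ fun q _ => tendsto_finsetSum _ fun q' _ => ?_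
    rcases hx q with h0 | h0
    · simp [h0]
    · rcases hx q' with h0' | h0'
      · simp [h0']
      · exact (h q q' h0 h0').const_mul _
  refine ge_of_tendsto' h1 fun n => ?_
  have h2 : ∑ q, ∑ q', x q * x q' * avg (a q) (a q') n =
      (∑ j ∈ Finset.range n, (∑ q, x q * a q j) ^ 2) / (n : ℝ) := by
    have : ∀ j, (∑ q, x q * a q j) ^ 2 = ∑ q, ∑ q', x q * x q' * (a q j * a q' j) := by
      intro j
      rw [sq, Finset.sum_mul_sum]
      refine Finset.sum_congr rfl fun q _ => Finset.sum_congr rfl fun q' _ => ?_
      ring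
    simp_rw [this]
    rw [Finset.sum_comm (s := Finset.range n), Finset.sum_div]
    refine Finset.sum_congr rfl fun q _ => ?_
    rw [Finset.sum_comm (s := Finset.range n), Finset.sum_div]
    refine Finset.sum_congr rfl fun q' _ => ?_
    rw [avg, ← Finset.mul_sum, mul_div_assoc]
  rw [h2]
  positivity

/-- choice of a tree vertex representing the relative position of `q'` seen from `q` -/
noncomputable def rel (R r : ℕ) (q q' : Qt R) : W :=
  open Classical in
  if h : ∃ g : W, len g ≤ 2 * r ∧ cov R q g = q' then h.choose else (exists_long (2 * r + 1)).choose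

lemma rel_near {R r : ℕ} {q q' : Qt R} (h : ∃ g : W, len g ≤ 2 * r ∧ cov R q g = q') :
    len (rel R r q q') ≤ 2 * r ∧ cov R q (rel R r q q') = q' := by
  unfold rel
  rw [dif_pos h]
  exact h.choose_spec

lemma rel_far {R r : ℕ} {q q' : Qt R} (h : ¬ ∃ g : W, len g ≤ 2 * r ∧ cov R q g = q') :
    len (rel R r q q') = 2 * r + 1 := by
  unfold rel
  rw [dif_neg h]
  exact (exists_long (2 * r + 1)).choose_spec

lemma rel_kernel {R r : ℕ} (hR : 3 * r ≤ R) (q q' : Qt R) {b b' : W} (hb : len b ≤ r)
    (hb' : len b' ≤ r) : b = tr (rel R r q q') b' ↔ cov R q b = cov R q' b' := by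
  by_cases h : ∃ g : W, len g ≤ 2 * r ∧ cov R q g = q'
  · obtain ⟨h1, h2⟩ := rel_near h
    have := kernel_near hR (q := q) h1 hb hb'
    rwa [h2] at this
  · have h1 := rel_far h
    have h2 : b ≠ tr (rel R r q q') b' := far_tr (by omega) hb hb'
    have h3 : cov R q b ≠ cov R q' b' := by
      refine kernel_far (r := r) (fun g hg hgq => h ⟨g, hg, hgq⟩) hb hb'
    exact ⟨fun h => absurd h h2, fun h => absurd h h3⟩

lemma T_adj_root {g : W} : T.Adj root g ↔ len g = 1 := by
  constructor
  · rintro ⟨s, rfl⟩
    simp [step, root, len]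
  · intro h
    obtain ⟨l, hl⟩ := g
    obtain ⟨a, rfl⟩ := List.length_eq_one_iff.1 (show l.length = 1 from h)
    exact ⟨a, by simp [step, root]⟩

lemma C_rel {R r : ℕ} [DecidableEq (Qt R)] (hr : 1 ≤ r) (hR : 3 * r ≤ R) (q q' : Qt R) :
    C root (rel R r q q') = (if q' = q then 17 else 0) - 6 * ∑ s : Fin 3,
      (if q' = sig R s * q then 1 else 0) := by
  have hcs : ∀ s : Fin 3, cov R q (step s root) = sig R s * q := by
    intro s; rw [cov_step, cov_root]
  have hls : ∀ s : Fin 3, len (step s root) = 1 := by
    intro s; simp [step, root, len]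
  by_cases h : ∃ g : W, len g ≤ 2 * r ∧ cov R q g = q'
  · obtain ⟨h1, h2⟩ := rel_near h
    set g := rel R r q q' with hg
    have e0 : q' = q ↔ root = g := by
      constructor
      · intro h3
        refine cov_inj (R := R) (q := q) (by simp [len, root]) (by omega) ?_
        rw [cov_root, h2, h3]
      · intro h3; rw [← h2, ← h3, cov_root]
    have e1 : ∀ s : Fin 3, q' = sig R s * q ↔ step s root = g := by
      intro s
      constructor
      · intro h3
        refine cov_inj (R := R) (q := q) (by rw [hls]; omega) (by omega) ?_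
        rw [hcs, h2, h3]
      · intro h3; rw [← h2, ← h3, hcs]
    simp_rw [e0, e1]
    unfold C
    by_cases h3 : root = g
    · rw [if_pos h3, if_pos h3]
      have : ∀ s : Fin 3, ¬ (step s root = g) := by
        intro s h4; rw [← h3] at h4; exact step_ne s root h4
      simp [this]
    · rw [if_neg h3, if_neg h3]
      by_cases h4 : T.Adj root g
      · rw [if_pos h4]
        obtain ⟨s₀, hs₀⟩ := h4
        have : ∀ s : Fin 3, (step s root = g) ↔ s = s₀ := by
          intro s
          constructor
          · intro h5; exact step_injective root (h5.trans hs₀.symm)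
          · intro h5; rw [h5, hs₀]
        simp [this]
      · rw [if_neg h4]
        have : ∀ s : Fin 3, ¬ (step s root = g) := fun s h5 => h4 ⟨s, h5⟩
        simp [this]
  · have h1 := rel_far h
    set g := rel R r q q' with hg
    have hne : root ≠ g := by
      intro h2
      rw [← h2] at h1
      simp [len, root] at h1
    have hna : ¬ T.Adj root g := by
      rw [T_adj_root]; omega
    have h3 : q' ≠ q := by
      intro h3; exact h ⟨root, by simp [len, root], by rw [cov_root, h3]⟩
    have h4 : ∀ s : Fin 3, q' ≠ sig R s * q := by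
      intro s h4; exact h ⟨step s root, by rw [hls]; omega, by rw [hcs, h4]⟩
    simp [C, hne, hna, h3, h4]

lemma sig_ne {R : ℕ} (s : Fin 3) (q : Qt R) (hR : 1 ≤ R) : sig R s * q ≠ q := by
  intro h
  have h1 : cov R q (step s root) = cov R q root := by
    rw [cov_step, cov_root, h]
  have h2 := cov_inj (by simp [step, root, len]; omega) (by simp [len, root]) h1
  exact step_ne s root h2

/-- The counting inequality. -/
lemma count_ineq {R r : ℕ} (hr : 1 ≤ r) (hR : 3 * r ≤ R) [Fintype (Qt R)] (x : Qt R → ℝ)
    (hx : ∀ q, x q = 0 ∨ x q = 1)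
    (h : 0 ≤ ∑ q, ∑ q', x q * x q' * C root (rel R r q q')) :
    19 * ∑ q, x q ≤ 18 * (Fintype.card (Qt R) : ℝ) := by
  classical
  have h1 : ∀ q, ∑ q', x q * x q' * C root (rel R r q q') ≤
      18 - x q - 6 * ∑ s : Fin 3, x (sig R s * q) := by
    intro q
    have e1 : ∑ q', x q * x q' * C root (rel R r q q') =
        x q * (17 * x q - 6 * ∑ s : Fin 3, x (sig R s * q)) := by
      simp_rw [C_rel hr hR, mul_sub, Finset.sum_sub_distrib, mul_ite, mul_zero]
      rw [Finset.sum_ite_eq' Finset.univ q]
      simp only [Finset.mem_univ, if_true]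
      congr 1
      · ring
      · simp_rw [Finset.mul_sum]
        rw [Finset.sum_comm]
        refine Finset.sum_congr rfl fun s _ => ?_
        simp only [mul_ite, mul_one, mul_zero, Finset.sum_ite_eq', Finset.mem_univ, if_true]
        ring
    rw [e1]
    have hb : ∀ q, 0 ≤ x q ∧ x q ≤ 1 := by
      intro q; rcases hx q with h | h <;> rw [h] <;> norm_num
    have hs : ∑ s : Fin 3, x (sig R s * q) ≤ 3 := by
      calc ∑ s : Fin 3, x (sig R s * q) ≤ ∑ s : Fin 3, (1:ℝ) := 
            Finset.sum_le_sum fun s _ => (hb _).2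
        _ = 3 := by simp
    rcases hx q with h0 | h0
    · rw [h0]; linarith
    · rw [h0]; linarith
  have h2 := h.trans (Finset.sum_le_sum fun q _ => h1 q)
  rw [Finset.sum_sub_distrib, Finset.sum_sub_distrib, ← Finset.mul_sum, Finset.sum_comm] at h2
  have h3 : ∀ s : Fin 3, ∑ q, x (sig R s * q) = ∑ q, x q := by
    intro s
    exact Fintype.sum_equiv (Equiv.mulLeft (sig R s)) _ _ (fun q => rfl)
  simp_rw [h3] at h2
  simp only [Finset.sum_const, Finset.card_univ, Fintype.card_fin, nsmul_eq_mul] at h2
  push_cast at h2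
  linarith

/-- Extend labels on the ball by `z₀`. -/
noncomputable def ext {r : ℕ} (z₀ : W → unitInterval) (u : ball r → unitInterval) :
    W → unitInterval :=
  fun v => if h : v ∈ ball r then u ⟨v, h⟩ else z₀ v

lemma measurable_ext {r : ℕ} (z₀ : W → unitInterval) :
    Measurable (fun u : ball r → unitInterval => ext z₀ u) := by
  refine measurable_pi_lambda _ fun v => ?_
  unfold ext
  by_cases h : v ∈ ball r
  · simp only [h, dif_pos]; fun_prop
  · simp only [h, dif_neg, not_false_eq_true]; fun_prop

lemma ext_apply {r : ℕ} (z₀ : W → unitInterval) (u : ball r → unitInterval) {v : W}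
    (h : v ∈ ball r) : ext z₀ u v = u ⟨v, h⟩ := by
  simp [ext, h]

section Main

variable (F : (W → unitInterval) → (W → ℕ → ℝ)) (hF : Measurable F)
  (hmap : (lam W).map F = muF)
  (heq : ∀ φ : T ≃g T, ∀ᵐ y ∂(lam W), F (fun v => y (φ v)) = fun v => F y (φ v))
  (hfin : ∀ᵐ y ∂(lam W), ∀ v : W, ∃ r : ℕ, ∀ y' : W → unitInterval,
    (∀ u : W, T.dist v u ≤ r → y' u = y u) → F y' v = F y v)

include hfin in
/-- The determined set is large for large radius. -/
lemma exists_radius : ∃ r : ℕ, 1 ≤ r ∧
    (18 / 19 : ℝ) < (lam W).real (Det (ball r) (fun y => F y root)) := by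
  set f : (W → unitInterval) → ℕ → ℝ := fun y => F y root with hf
  let G : ℕ → Set (W → unitInterval) := fun r =>
    {y | ∀ y' : W → unitInterval, (∀ v ∈ ball r, y' v = y v) → f y' = f y}
  have hmono : Monotone G := by
    intro r r' hr y hy y' hy'
    exact hy y' (fun v hv => hy' v (mem_ball.2 ((mem_ball.1 hv).trans hr)))
  have hunion : (lam W) (⋃ r, G r) = 1 := by
    rw [← measure_univ (μ := lam W)]
    refine measure_congr ?_
    rw [ae_eq_univ]
    refine measure_mono_null ?_ (ae_iff.1 hfin)
    intro y hy
    simp only [Set.mem_compl_iff, Set.mem_iUnion, not_exists] at hy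
    simp only [Set.mem_ofPred_eq]
    intro hcon
    obtain ⟨r, hr⟩ := hcon root
    refine hy r ?_
    intro y' hy'
    exact hr y' (fun u hu => hy' u (mem_ball.2 ((len_le_dist u).trans hu)))
  have htend := tendsto_measure_iUnion_atTop (μ := lam W) hmono
  rw [hunion] at htend
  have h1 : ENNReal.ofReal (18 / 19) < 1 := by
    rw [ENNReal.ofReal_lt_one]; norm_num
  obtain ⟨r, hr, hr1⟩ := ((htend.eventually_const_lt h1).and (eventually_ge_atTop 1)).exists
  refine ⟨r, hr1, ?_⟩
  have hsub : G r ⊆ Det (ball r) f := fun y hy => det_of_good f hy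
  have h2 : ENNReal.ofReal (18 / 19) < (lam W) (Det (ball r) f) :=
    hr.trans_le (measure_mono hsub)
  rw [Measure.real]
  exact (ENNReal.ofReal_lt_iff_lt_toReal (by norm_num) (measure_ne_top _ _)).1 h2

include hF hmap heq in
/-- The tree side property. -/
lemma tree_side (r : ℕ) (z₀ : W → unitInterval)
    (hz : ∀ᵐ y ∂(lam W), y ∈ Det (ball r) (fun y => F y root) →
      F y root = F (splice (ball r) y z₀) root) (g : W) :
    ∀ᵐ y ∂(lam W), y ∈ Det (ball r) (fun y => F y root) →
      (fun v => y (tr g v)) ∈ Det (ball r) (fun y => F y root) →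
      Tendsto (avg (F (splice (ball r) y z₀) root)
        (F (splice (ball r) (fun v => y (tr g v)) z₀) root)) atTop (𝓝 (C root g)) := by
  have h1 : ∀ᵐ y ∂(lam W), Tendsto (avg (F y root) (F y g)) atTop (𝓝 (C root g)) := by
    have := muF_lln root g
    rw [← hmap] at this
    exact ae_of_ae_map hF.aemeasurable this
  have h2 := heq (trIso g)
  have h3 : ∀ᵐ y ∂(lam W), (fun v => y (tr g v)) ∈ Det (ball r) (fun y => F y root) →
      F (fun v => y (tr g v)) root = F (splice (ball r) (fun v => y (tr g v)) z₀) root := by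
    have e : (lam W).map (fun y (v : W) => y (tr g v)) = lam W :=
      Measure.map_infinitePi_infinitePi_of_inj (tr_injective g)
    rw [← e] at hz
    exact ae_of_ae_map (measurable_pi_lambda _ fun v => measurable_pi_apply _).aemeasurable hz
  filter_upwards [h1, h2, h3, hz] with y h1 h2 h3 h4 hy hy'
  rw [← h4 hy, ← h3 hy']
  have h5 := congrFun h2 root
  simp only [trIso_apply, tr_root] at h5
  rw [h5]
  exact h1

include hF hmap heq in
/-- The property on the finite graph. -/
lemma quot_side (R r : ℕ) (hR : 3 * r ≤ R) (z₀ : W → unitInterval)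
    (hz : ∀ᵐ y ∂(lam W), y ∈ Det (ball r) (fun y => F y root) →
      F y root = F (splice (ball r) y z₀) root) (q q' : Qt R) :
    ∀ᵐ y ∂(lam (Qt R)),
      (fun v => y (cov R q v)) ∈ Det (ball r) (fun y => F y root) →
      (fun v => y (cov R q' v)) ∈ Det (ball r) (fun y => F y root) →
      Tendsto (avg (F (splice (ball r) (fun v => y (cov R q v)) z₀) root)
        (F (splice (ball r) (fun v => y (cov R q' v)) z₀) root)) atTop
        (𝓝 (C root (rel R r q q'))) := by
  set g := rel R r q q' with hg
  set D := Det (ball r) (fun y => F y root) with hD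
  have hDm : MeasurableSet D :=
    measurableSet_det (ball r) ((measurable_pi_apply root).comp hF)
  let J := (ball r) ⊕ (ball r)
  let α : J → W := Sum.elim (fun b => b.1) (fun b => tr g b.1)
  let β : J → Qt R := Sum.elim (fun b => cov R q b.1) (fun b => cov R q' b.1)
  have hker : ∀ i j, α i = α j ↔ β i = β j := by
    have hb : ∀ b : ball r, len b.1 ≤ r := fun b => mem_ball.1 b.2
    have hb' : ∀ b : ball r, len b.1 ≤ R := fun b => (hb b).trans (by omega)
    rintro (i | i) (j | j)
    · exact ⟨fun h => by change cov R q i.1 = cov R q j.1; rw [show i.1 = j.1 from h],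
        fun h => cov_inj (hb' i) (hb' j) h⟩
    · exact rel_kernel hR q q' (hb i) (hb j)
    · have := rel_kernel hR q q' (hb j) (hb i)
      exact ⟨fun h => (this.1 h.symm).symm, fun h => (this.2 h.symm).symm⟩
    · refine ⟨fun h => ?_, fun h => ?_⟩
      · have := tr_injective g h
        change cov R q' i.1 = cov R q' j.1
        rw [this]
      · have := cov_inj (hb' i) (hb' j) h
        change tr g i.1 = tr g j.1
        rw [this]
  have hlaw := map_comp_eq α β hker
  -- the predicate on finitely many labels
  let e1 : (J → unitInterval) → (W → unitInterval) := fun u => ext z₀ (fun b => u (Sum.inl b))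
  let e2 : (J → unitInterval) → (W → unitInterval) := fun u => ext z₀ (fun b => u (Sum.inr b))
  have me1 : Measurable e1 := by
    have h := (measurable_ext (r := r) z₀).comp
      (measurable_pi_lambda (fun (u : J → unitInterval) (b : ball r) => u (Sum.inl b))
        fun b => measurable_pi_apply _)
    exact h
  have me2 : Measurable e2 := by
    have h := (measurable_ext (r := r) z₀).comp
      (measurable_pi_lambda (fun (u : J → unitInterval) (b : ball r) => u (Sum.inr b))
        fun b => measurable_pi_apply _)
    exact h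
  have mα : Measurable (fun (y : W → unitInterval) (i : J) => y (α i)) :=
    measurable_pi_lambda _ fun b => measurable_pi_apply _
  have mβ : Measurable (fun (y : Qt R → unitInterval) (i : J) => y (β i)) :=
    measurable_pi_lambda _ fun b => measurable_pi_apply _
  let P : (J → unitInterval) → Prop := fun u =>
    e1 u ∈ D → e2 u ∈ D → Tendsto (avg (F (splice (ball r) (e1 u) z₀) root)
        (F (splice (ball r) (e2 u) z₀) root)) atTop (𝓝 (C root g))
  have hPm : MeasurableSet {u | P u} := by
    have h1 : {u | P u} = (e1 ⁻¹' D)ᶜ ∪ ((e2 ⁻¹' D)ᶜ ∪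
        {u | Tendsto (fun n => avg (F (splice (ball r) (e1 u) z₀) root)
        (F (splice (ball r) (e2 u) z₀) root) n) atTop (𝓝 (C root g))}) := by
      ext u
      simp only [P, Set.mem_ofPred_eq, Set.mem_union, Set.mem_compl_iff, Set.mem_preimage]
      tauto
    rw [h1]
    refine (me1 hDm).compl.union ((me2 hDm).compl.union ?_)
    refine measurableSet_tendsto (𝓝 (C root g)) (fun n => ?_)
    have m1 : Measurable (fun u : J → unitInterval => F (splice (ball r) (e1 u) z₀) root) :=
      ((measurable_pi_apply root).comp hF).comp ((measurable_splice (ball r)).comp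
        (me1.prodMk measurable_const))
    have m2 : Measurable (fun u : J → unitInterval => F (splice (ball r) (e2 u) z₀) root) :=
      ((measurable_pi_apply root).comp hF).comp ((measurable_splice (ball r)).comp
        (me2.prodMk measurable_const))
    exact (measurable_avg n).comp (m1.prodMk m2)
  have hV : ∀ᵐ y ∂(lam W), P (fun i => y (α i)) := by
    filter_upwards [tree_side F hF hmap heq r z₀ hz g] with y hy
    have a1 : ∀ v ∈ ball r, e1 (fun i => y (α i)) v = y v := fun v hv => ext_apply _ _ hv
    have a2 : ∀ v ∈ ball r, e2 (fun i => y (α i)) v = y (tr g v) := fun v hv => ext_apply _ _ hv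
    intro h1 h2
    have h1' : y ∈ D := (det_congr _ a1).1 h1
    have h2' : (fun v => y (tr g v)) ∈ D := (det_congr _ (y := fun v => y (tr g v)) a2).1 h2
    have := hy h1' h2'
    rw [splice_congr a1, splice_congr (y := fun v => y (tr g v)) a2]
    exact this
  have hQ : ∀ᵐ y ∂(lam (Qt R)), P (fun i => y (β i)) := by
    have h1 : ∀ᵐ u ∂((lam W).map (fun y i => y (α i))), P u := by
      rw [ae_map_iff mα.aemeasurable hPm]
      exact hV
    rw [hlaw] at h1
    exact ae_of_ae_map mβ.aemeasurable h1
  filter_upwards [hQ] with y hy h1 h2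
  have a1 : ∀ v ∈ ball r, e1 (fun i => y (β i)) v = y (cov R q v) := fun v hv => ext_apply _ _ hv
  have a2 : ∀ v ∈ ball r, e2 (fun i => y (β i)) v = y (cov R q' v) :=
    fun v hv => ext_apply _ _ hv
  have h1' : e1 (fun i => y (β i)) ∈ D := (det_congr _ (y := fun v => y (cov R q v)) a1).2 h1
  have h2' : e2 (fun i => y (β i)) ∈ D := (det_congr _ (y := fun v => y (cov R q' v)) a2).2 h2
  have := hy h1' h2'
  rw [splice_congr (y := fun v => y (cov R q v)) a1,
    splice_congr (y := fun v => y (cov R q' v)) a2] at this
  exact this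

include hF hmap heq hfin in
/-- There is no finitary coding. -/
theorem no_finitary : False := by
  classical
  obtain ⟨r, hr1, hr⟩ := exists_radius F hfin
  set D := Det (ball r) (fun y => F y root) with hD
  have hf : Measurable (fun y => F y root) := (measurable_pi_apply root).comp hF
  have hDm : MeasurableSet D := measurableSet_det (ball r) hf
  obtain ⟨z₀, hz⟩ := exists_local (ball r) hf
  set R := 3 * r with hR
  let fQ : Fintype (Qt R) := Fintype.ofFinite _
  let c : (Qt R → unitInterval) → Qt R → W → unitInterval := fun y q v => y (cov R q v)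
  have hc : ∀ q, Measurable (fun y => c y q) := by
    intro q
    refine measurable_pi_lambda _ fun v => ?_
    exact measurable_pi_apply _
  let x : (Qt R → unitInterval) → Qt R → ℝ := fun y q => Set.indicator D (fun _ => (1:ℝ)) (c y q)
  have hall : ∀ᵐ y ∂(lam (Qt R)), ∀ q q', c y q ∈ D → c y q' ∈ D →
      Tendsto (avg (F (splice (ball r) (c y q) z₀) root)
        (F (splice (ball r) (c y q') z₀) root)) atTop (𝓝 (C root (rel R r q q'))) := by
    rw [ae_all_iff]; intro q
    rw [ae_all_iff]; intro q'
    exact quot_side F hF hmap heq R r le_rfl z₀ hz q q'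
  have hineq : ∀ᵐ y ∂(lam (Qt R)), 19 * ∑ q, x y q ≤ 18 * (Fintype.card (Qt R) : ℝ) := by
    filter_upwards [hall] with y hy
    have hx01 : ∀ q, x y q = 0 ∨ x y q = 1 := by
      intro q
      by_cases h : c y q ∈ D
      · right; simp [x, h]
      · left; simp [x, h]
    have hx1 : ∀ q, x y q = 1 → c y q ∈ D := by
      intro q h
      by_contra hcon
      simp [x, hcon] at h
    refine count_ineq hr1 le_rfl (x y) hx01 ?_
    refine gram_nonneg (fun q => F (splice (ball r) (c y q) z₀) root)
      (fun q q' => C root (rel R r q q')) (x y) hx01 ?_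
    intro q q' h h'
    exact hy q q' (hx1 q h) (hx1 q' h')
  have hmean : ∀ q, ∫ y, x y q ∂(lam (Qt R)) = (lam W).real D := by
    intro q
    have e1 : ∫ y, x y q ∂(lam (Qt R)) = (lam (Qt R)).real ((fun y => c y q) ⁻¹' D) := by
      have : (fun y => x y q) = Set.indicator ((fun y => c y q) ⁻¹' D) (fun _ => (1:ℝ)) := by
        funext y
        simp only [x, Set.indicator, Set.mem_preimage]
      rw [this, integral_indicator_const _ ((hc q) hDm)]
      simp
    rw [e1]
    -- transfer
    let e : (ball r → unitInterval) → (W → unitInterval) := fun u => ext z₀ u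
    have me : Measurable e := measurable_ext z₀
    have hlaw := map_comp_eq (fun b : ball r => b.1) (fun b : ball r => cov R q b.1) (by
      intro i j
      have hb' : ∀ b : ball r, len b.1 ≤ R := fun b => (mem_ball.1 b.2).trans (by omega)
      exact ⟨fun h => by rw [h], fun h => cov_inj (hb' i) (hb' j) h⟩)
    have h1 := congrArg (fun m : Measure (ball r → unitInterval) => m.real (e ⁻¹' D)) hlaw
    beta_reduce at h1
    rw [map_measureReal_apply (by fun_prop) (me hDm), map_measureReal_apply (by fun_prop) (me hDm)]
      at h1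
    have s1 : (fun (y : W → unitInterval) (i : ball r) => y i.1) ⁻¹' (e ⁻¹' D) = D := by
      ext y
      simp only [Set.mem_preimage]
      exact det_congr _ (fun v hv => ext_apply _ _ hv)
    have s2 : (fun (y : Qt R → unitInterval) (i : ball r) => y (cov R q i.1)) ⁻¹' (e ⁻¹' D) =
        (fun y => c y q) ⁻¹' D := by
      ext y
      simp only [Set.mem_preimage]
      exact det_congr _ (fun v hv => ext_apply _ _ hv)
    rw [s1, s2] at h1
    exact h1.symm
  have hint : ∀ q, Integrable (fun y => x y q) (lam (Qt R)) := by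
    intro q
    have : (fun y => x y q) = Set.indicator ((fun y => c y q) ⁻¹' D) (fun _ => (1:ℝ)) := by
      funext y
      simp only [x, Set.indicator, Set.mem_preimage]
    rw [this]
    exact (integrable_const _).indicator ((hc q) hDm)
  have hfinal : ∫ y, 19 * ∑ q, x y q ∂(lam (Qt R)) ≤
      ∫ _, 18 * (Fintype.card (Qt R) : ℝ) ∂(lam (Qt R)) := by
    refine integral_mono_ae ?_ (integrable_const _) hineq
    exact (integrable_finsetSum _ fun q _ => hint q).const_mul _
  rw [integral_const_mul, integral_finsetSum _ (fun q _ => hint q)] at hfinal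
  simp_rw [hmean] at hfinal
  simp only [Finset.sum_const, Finset.card_univ, nsmul_eq_mul, integral_const, probReal_univ,
    smul_eq_mul, one_mul] at hfinal
  have hpos : (0:ℝ) < Fintype.card (Qt R) := by
    have : Nonempty (Qt R) := ⟨1⟩
    exact_mod_cast Fintype.card_pos
  nlinarith

end Main

end Pool.Agent.TreeFinitary
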